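import Mathlib

set_option autoImplicit false

/-!
# GP-LOW: the abstract part
-/

open MeasureTheory Set Filter Topology

namespace Pool.Agent.W409.GP

theorem low_of (Z : ℝ → ℝ) (hc : Continuous Z) (h0 : ∀ t, 0 ≤ Z t) (A s : ℝ) (hA : 0 < A)
    (hs : 0 < s)
    (h1 : ∀ᶠ T : ℝ in atTop, 64 / 125 * A * (T * Real.log T ^ s) ≤ ∫ t in (0 : ℝ)..T, Z t)
    (h2 : ∀ᶠ T : ℝ in atTop, ∫ t in (0 : ℝ)..T, Z t ≤ 663 / 200 * A * (T * Real.log T ^ s))
    (p : ℝ) (hp : 1 ≤ p) (K : ℝ) :
    ∀ᶠ T : ℝ in atTop, K * T ≤ ∫ t in T..(8 * T), Z t ^ p := by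
  have h3 : Tendsto (fun T : ℝ => Real.log T ^ s) atTop atTop :=
    (tendsto_rpow_atTop hs).comp Real.tendsto_log_atTop
  have h8 : Tendsto (fun T : ℝ => 8 * T) atTop atTop :=
    tendsto_id.const_mul_atTop (by norm_num)
  obtain ⟨y, hy⟩ : ∃ y : ℝ, y = max 1 K := ⟨_, rfl⟩
  have hy1 : 1 ≤ y := by rw [hy]; exact le_max_left _ _
  have hyK : K ≤ y := by rw [hy]; exact le_max_right _ _
  filter_upwards [h8.eventually h1, h2, h3.eventually_ge_atTop (7 * y / (781 / 1000 * A)),
    eventually_ge_atTop (1 : ℝ)] with T e1 e2 e3 e4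
  have hT : 0 < T := by linarith
  have hy0 : 0 < y := by linarith
  have hint : ∀ a b : ℝ, IntervalIntegrable Z volume a b := fun a b => hc.intervalIntegrable a b
  have hlog : Real.log T ^ s ≤ Real.log (8 * T) ^ s := by
    apply Real.rpow_le_rpow (Real.log_nonneg e4) _ hs.le
    exact Real.log_le_log hT (by linarith)
  have hlog0 : 0 ≤ Real.log T ^ s := Real.rpow_nonneg (Real.log_nonneg e4) _
  -- the mean value
  have hm : 7 * T * y ≤ ∫ t in T..(8 * T), Z t := by
    have k1 : (∫ t in (0 : ℝ)..T, Z t) + ∫ t in T..(8 * T), Z t = ∫ t in (0 : ℝ)..(8 * T), Z t :=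
      intervalIntegral.integral_add_adjacent_intervals (hint _ _) (hint _ _)
    have k2 : 64 / 125 * A * (8 * T * Real.log T ^ s) ≤
        64 / 125 * A * (8 * T * Real.log (8 * T) ^ s) := by
      apply mul_le_mul_of_nonneg_left _ (by positivity)
      exact mul_le_mul_of_nonneg_left hlog (by positivity)
    have k3 : 7 * y ≤ 781 / 1000 * A * Real.log T ^ s := by
      rw [div_le_iff₀ (by positivity)] at e3
      linarith
    have k4 : T * (7 * y) ≤ T * (781 / 1000 * A * Real.log T ^ s) :=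
      mul_le_mul_of_nonneg_left k3 hT.le
    nlinarith
  -- the tangent line
  have htan : ∀ t, y ^ p * (1 + p * (Z t / y - 1)) ≤ Z t ^ p := by
    intro t
    have k1 : 1 + p * (Z t / y - 1) ≤ (1 + (Z t / y - 1)) ^ p := by
      apply one_add_mul_self_le_rpow_one_add _ hp
      have : 0 ≤ Z t / y := div_nonneg (h0 t) hy0.le
      linarith
    have k2 : (1 + (Z t / y - 1)) = Z t / y := by ring
    rw [k2] at k1
    have k3 : y ^ p * (Z t / y) ^ p = Z t ^ p := by
      rw [← Real.mul_rpow hy0.le (div_nonneg (h0 t) hy0.le), mul_div_cancel₀ _ hy0.ne']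
    rw [← k3]
    exact mul_le_mul_of_nonneg_left k1 (Real.rpow_nonneg hy0.le _)
  have hcp : Continuous fun t => Z t ^ p := hc.rpow_const fun t => Or.inr (by linarith)
  have hci : Continuous fun t => y ^ p * (1 + p * (Z t / y - 1)) := by fun_prop
  have hmono : ∫ t in T..(8 * T), y ^ p * (1 + p * (Z t / y - 1)) ≤ ∫ t in T..(8 * T), Z t ^ p :=
    intervalIntegral.integral_mono_on (by linarith) (hci.intervalIntegrable _ _)
      (hcp.intervalIntegrable _ _) fun t _ => htan t
  have hval : ∫ t in T..(8 * T), y ^ p * (1 + p * (Z t / y - 1)) =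
      y ^ p * (7 * T + p * ((∫ t in T..(8 * T), Z t) / y - 7 * T)) := by
    have k1 : (fun t => y ^ p * (1 + p * (Z t / y - 1))) =
        fun t => (y ^ p * (1 - p)) + (y ^ p * p / y) * Z t := by
      funext t
      field_simp
      ring
    rw [k1, intervalIntegral.integral_add (continuous_const.intervalIntegrable _ _)
      ((hc.const_mul _).intervalIntegrable _ _), intervalIntegral.integral_const,
      intervalIntegral.integral_const_mul, smul_eq_mul]
    field_simp
    ring
  rw [hval] at hmono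
  have hyp : y ≤ y ^ p := by
    calc y = y ^ (1 : ℝ) := (Real.rpow_one y).symm
      _ ≤ y ^ p := Real.rpow_le_rpow_of_exponent_le hy1 hp
  have k5 : 7 * T ≤ (∫ t in T..(8 * T), Z t) / y := by
    rw [le_div_iff₀ hy0]; exact hm
  have k6 : 7 * T ≤ 7 * T + p * ((∫ t in T..(8 * T), Z t) / y - 7 * T) := by
    have : 0 ≤ p * ((∫ t in T..(8 * T), Z t) / y - 7 * T) :=
      mul_nonneg (by linarith) (by linarith)
    linarith
  calc K * T ≤ y * T := mul_le_mul_of_nonneg_right hyK hT.le
    _ ≤ y ^ p * (7 * T) := by nlinarith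
    _ ≤ y ^ p * (7 * T + p * ((∫ t in T..(8 * T), Z t) / y - 7 * T)) :=
        mul_le_mul_of_nonneg_left k6 (Real.rpow_nonneg hy0.le _)
    _ ≤ _ := hmono

end Pool.Agent.W409.GP
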