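import Pool.Agent.W188.GP.Stm
import Pool.Agent.W184.Const
import Pool.Agent.W409.GP.Low0

set_option autoImplicit false

/-!
# GP-LOW: lower bound for the moments
-/

open Complex MeasureTheory Set Filter Topology

namespace Pool.Agent.W409.GP

open Pool.Agent.W188.QS Pool.Agent.W188.GP

theorem continuous_ZZ : Continuous ZZ := by
  have h : ∀ t : ℝ, cp t ≠ 1 := by
    intro t h1
    have h2 := congrArg Complex.re h1
    unfold cp at h2
    norm_num at h2
  have hcp : Continuous cp := by unfold cp; fun_prop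
  rw [continuous_iff_continuousAt]
  intro t
  have h1 : ContinuousAt riemannZeta (cp t) := (differentiableAt_riemannZeta (h t)).continuousAt
  exact (ContinuousAt.comp (f := cp) (g := riemannZeta) h1 hcp.continuousAt).norm

theorem gp_low : Pool.Agent.W188.GP.StLow := by
  intro p hp K
  have haF : 0 < Pool.Agent.H306R2.aF (1 / ((2 : ℕ) : ℝ)) :=
    Pool.Agent.H306R2.aF_pos (by norm_num)
  have hG : 0 < Real.Gamma ((1 / ((2 : ℕ) : ℝ)) ^ 2 + 1) := Real.Gamma_pos_of_pos (by positivity)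
  have e2 : ∀ T : ℝ, ∫ t in (0 : ℝ)..T, Pool.Agent.W184.zn (1 / 2) t ^ (2 / ((2 : ℕ) : ℝ)) =
      ∫ t in (0 : ℝ)..T, ZZ t := by
    intro T
    refine intervalIntegral.integral_congr fun t _ => ?_
    rw [show (2 / ((2 : ℕ) : ℝ)) = (1 : ℝ) by norm_num, Real.rpow_one]
    unfold Pool.Agent.W184.zn ZZ cp
    norm_num
  refine low_of ZZ continuous_ZZ (fun t => norm_nonneg _)
    (Pool.Agent.H306R2.aF (1 / ((2 : ℕ) : ℝ)) / Real.Gamma ((1 / ((2 : ℕ) : ℝ)) ^ 2 + 1))
    ((1 / ((2 : ℕ) : ℝ)) ^ 2) (div_pos haF hG) (by norm_num) ?_ ?_ p hp K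
  · filter_upwards [Pool.Agent.W184.first_lower] with T h1
    unfold Pool.Agent.W184.MM at h1
    rw [e2] at h1
    refine le_trans (le_of_eq ?_) h1
    ring
  · filter_upwards [Pool.Agent.W184.first_upper] with T h1
    unfold Pool.Agent.W184.MM at h1
    rw [e2] at h1
    refine le_trans h1 (le_of_eq ?_)
    ring

end Pool.Agent.W409.GP
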